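import Mathlib

set_option autoImplicit false

namespace Pool.Agent.Results.MP_0ebc21_nt.Growth

open Finset

/-- the coefficient of `q ^ m` in `Ψ(-q ^ a, q)`: the first sum runs over the indices `n ≥ 0`, the
second over the indices `-(n + 1)`; for `a ≥ 1` only `n ≤ m` can contribute -/
def psi (a m : ℕ) : ℤ :=
  (∑ n ∈ range (m + 1),
    if a * (n + 1).choose 2 + n.choose 2 = m then (-1) ^ (n + 1).choose 2 else 0) -
  ∑ n ∈ range (m + 1),
    if a * (n + 1).choose 2 + (n + 2).choose 2 = m then (-1) ^ (n + 1).choose 2 else 0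

lemma ch (n : ℕ) : (n + 1).choose 2 = n.choose 2 + n := by
  rw [Nat.choose_succ_succ' n 1, Nat.choose_one_right, add_comm]

lemma fiber (e : ℕ → ℕ) (he : ∀ n, n ≤ e n) (s : ℕ → ℤ) (hs : ∀ n, |s n| ≤ 1) (q : ℝ)
    (h0 : 0 ≤ q) (h1 : q < 1) : Summable (fun n => (s n : ℝ) * q ^ e n) ∧
    HasSum (fun m => ((∑ n ∈ range (m + 1), if e n = m then s n else 0 : ℤ) : ℝ) * q ^ m)
      (∑' n, (s n : ℝ) * q ^ e n) := by
  have hsum : Summable fun n => (s n : ℝ) * q ^ e n := by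
    refine Summable.of_norm_bounded (summable_geometric_of_lt_one h0 h1) fun n => ?_
    rw [norm_mul, Real.norm_eq_abs, Real.norm_of_nonneg (pow_nonneg h0 _)]
    have : |(s n : ℝ)| ≤ 1 := by exact_mod_cast hs n
    calc _ ≤ 1 * q ^ e n := mul_le_mul_of_nonneg_right this (pow_nonneg h0 _)
      _ ≤ q ^ n := by rw [one_mul]; exact pow_le_pow_of_le_one h0 h1.le (he n)
  refine ⟨hsum, ?_⟩
  suffices H : ∀ m, ((∑ n ∈ range (m + 1), if e n = m then s n else 0 : ℤ) : ℝ) * q ^ m =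
      ∑' b : (e ⁻¹' {m}), (s b : ℝ) * q ^ e b by
    simp only [H]
    exact hsum.hasSum.tsum_fiberwise e
  intro m
  rw [tsum_subtype (e ⁻¹' {m}) fun n => (s n : ℝ) * q ^ e n, tsum_eq_sum (s := range (m + 1))]
  · push_cast
    rw [sum_mul]
    refine sum_congr rfl fun n _ => ?_
    by_cases h : e n = m <;> simp [h, Set.indicator]
  · intro n hn
    have := he n
    rw [mem_range] at hn
    exact Set.indicator_of_notMem (fun h => by have : e n = m := h; omega) _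

lemma psi_bound (a m : ℕ) : |psi a m| ≤ 2 * (m + 1) := by
  have key : ∀ e : ℕ → ℕ, |∑ n ∈ range (m + 1),
      if e n = m then (-1 : ℤ) ^ (n + 1).choose 2 else 0| ≤ m + 1 := fun e => by
    refine (abs_sum_le_sum_abs _ _).trans ((sum_le_card_nsmul _ _ 1 fun n _ => ?_).trans (by simp))
    split_ifs <;> simp
  have h1 := key fun n => a * (n + 1).choose 2 + n.choose 2
  have h2 := key fun n => a * (n + 1).choose 2 + (n + 2).choose 2
  exact (abs_sub _ _).trans (by linarith)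

lemma tail (k : ℕ) : (2 * (k : ℝ) + 7) * (3 / 5) ^ (k + 4).choose 2 ≤ 327 / 1000 * (1 / 6) ^ k := by
  induction k with
  | zero => norm_num [Nat.choose]
  | succ k ih =>
    rw [show k + 1 + 4 = k + 4 + 1 by ring, ch, pow_add, pow_succ (1 / 6 : ℝ)]
    have h1 : (3 / 5 : ℝ) ^ (k + 4) ≤ (3 / 5) ^ 4 :=
      pow_le_pow_of_le_one (by norm_num) (by norm_num) (by omega)
    have h2 : (0 : ℝ) ≤ (3 / 5) ^ (k + 4).choose 2 := by positivity
    have h3 : (0 : ℝ) ≤ k := Nat.cast_nonneg k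
    have h4 : (2 * ((k : ℝ) + 1) + 7) * (3 / 5) ^ (k + 4) ≤ (2 * k + 7) / 6 := by nlinarith
    push_cast
    nlinarith [mul_le_mul_of_nonneg_left h4 h2]

lemma neg (a : ℕ) (ha : 1 ≤ a) : ∃ q : ℝ, 0 < q ∧ q < 1 ∧ ∑' m, (psi a m : ℝ) * q ^ m < 0 := by
  obtain ⟨q, h0, hq⟩ : ∃ q : ℝ, 0 < q ∧ q ^ a = 3 / 5 :=
    ⟨(3 / 5 : ℝ) ^ ((a : ℝ)⁻¹), by positivity, Real.rpow_inv_natCast_pow (by norm_num) (by omega)⟩
  have h1 : q < 1 := by
    by_contra h
    have := one_le_pow₀ (n := a) (not_lt.mp h)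
    linarith
  have h2 : 3 / 5 ≤ q := by rw [← hq]; exact pow_le_of_le_one h0.le h1.le (by omega)
  refine ⟨q, h0, h1, ?_⟩
  have b : ∀ n, n ≤ a * (n + 1).choose 2 := fun n =>
    le_trans (by rw [ch]; omega) (Nat.le_mul_of_pos_left _ ha)
  obtain ⟨s1, t1⟩ := fiber (fun n => a * (n + 1).choose 2 + n.choose 2)
    (fun n => le_add_right (b n)) (fun n => (-1) ^ (n + 1).choose 2) (by simp) q h0.le h1
  obtain ⟨s2, t2⟩ := fiber (fun n => a * (n + 1).choose 2 + (n + 2).choose 2)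
    (fun n => le_add_right (b n)) (fun n => (-1) ^ (n + 1).choose 2) (by simp) q h0.le h1
  have t := t1.sub t2
  simp only [← sub_mul, ← Int.cast_sub] at t
  have e : ∑' m, (psi a m : ℝ) * q ^ m = _ := t.tsum_eq
  rw [e, ← s1.tsum_sub s2, ← (s1.sub s2).sum_add_tsum_nat_add 3]
  have g : HasSum (fun k : ℕ => (1 - q) * (327 / 1000 * (1 / 6 : ℝ) ^ k))
      ((1 - q) * (327 / 1000 * (1 - 1 / 6)⁻¹)) :=
    ((hasSum_geometric_of_lt_one (by norm_num) (by norm_num)).mul_left _).mul_left _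
  have hle := ((summable_nat_add_iff 3).mpr (s1.sub s2)).tsum_le_tsum (fun k => by
    have e1 : (k + 3 + 2).choose 2 = (k + 3).choose 2 + (2 * k + 7) := by
      rw [ch, ch]; ring
    have e2 : 1 - q ^ (2 * k + 7) ≤ (2 * (k : ℝ) + 7) * (1 - q) := by
      have := one_add_mul_le_pow (a := q - 1) (by linarith) (2 * k + 7)
      push_cast at this
      rw [add_sub_cancel] at this
      linarith
    have e3 : 0 ≤ 1 - q ^ (2 * k + 7) := sub_nonneg.mpr (pow_le_one₀ h0.le h1.le)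
    have e4 : q ^ (k + 3).choose 2 ≤ 1 := pow_le_one₀ h0.le h1.le
    have e5 : (((-1 : ℤ) ^ (k + 3 + 1).choose 2 : ℤ) : ℝ) ≤ 1 := by
      rcases neg_one_pow_eq_or ℤ ((k + 3 + 1).choose 2) with h | h <;> rw [h] <;> norm_num
    have e6 := tail k
    have e7 : (0 : ℝ) ≤ (3 / 5) ^ (k + 4).choose 2 := by positivity
    have e8 : 0 ≤ q ^ (k + 3).choose 2 := by positivity
    rw [← mul_sub, e1, pow_add, pow_add, pow_add q ((k + 3).choose 2), pow_mul, hq, ← mul_sub,
      ← mul_one_sub]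
    calc _ ≤ 1 * ((3 / 5) ^ (k + 4).choose 2 * (q ^ (k + 3).choose 2 * (1 - q ^ (2 * k + 7)))) :=
          mul_le_mul_of_nonneg_right e5 (by positivity)
      _ ≤ 1 * ((3 / 5) ^ (k + 4).choose 2 * (1 * ((2 * (k : ℝ) + 7) * (1 - q)))) := by gcongr
      _ ≤ _ := by nlinarith [mul_le_mul_of_nonneg_left e6 (sub_nonneg.mpr h1.le)]) g.summable
  rw [g.tsum_eq] at hle
  refine lt_of_le_of_lt (add_le_add_right hle _) ?_
  simp only [sum_range_succ, sum_range_zero, Nat.choose, pow_add, pow_mul, hq]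
  norm_num
  have p2 : 9 / 25 ≤ q ^ 2 := by nlinarith
  have p3 : 27 / 125 ≤ q ^ 3 := by nlinarith
  have p4 : 81 / 625 ≤ q ^ 4 := by nlinarith
  have p5 : 243 / 3125 ≤ q ^ 5 := by nlinarith
  have : 1 - 3 / 5 * (1 + q + q ^ 2) - 27 / 125 * (q + q ^ 2 + q ^ 3 + q ^ 4 + q ^ 5) +
      327 / 1000 * (6 / 5) < 0 := by linarith
  nlinarith [mul_pos (sub_pos.mpr h1) (neg_pos.mpr this)]

theorem result (a : ℕ) (ha : 1 ≤ a) (c : ℕ → ℤ)
    (hc : PowerSeries.mk c * PowerSeries.mk (psi a) = 1) :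
    ∃ β : ℝ, 1 < β ∧ ∀ N : ℕ, ∃ n, N ≤ n ∧ β ^ n ≤ |(c n : ℝ)| := by
  by_contra h
  push Not at h
  obtain ⟨q, h0, h1, hq⟩ := neg a ha
  have bd : ∀ (m : ℕ) (t : ℝ), t ∈ Set.Icc 0 q → ‖(psi a m : ℝ) * t ^ m‖ ≤ 2 * ((m + 1) * q ^ m) := by
    intro m t ht
    have : |(psi a m : ℝ)| ≤ 2 * (m + 1) := by exact_mod_cast psi_bound a m
    rw [norm_mul, Real.norm_eq_abs, Real.norm_of_nonneg (pow_nonneg ht.1 _), ← mul_assoc]
    exact mul_le_mul this (pow_le_pow_left₀ ht.1 ht.2 m) (pow_nonneg ht.1 _) (by positivity)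
  have su : Summable fun m : ℕ => 2 * (((m : ℝ) + 1) * q ^ m) := by
    have hn : ‖q‖ < 1 := by rwa [Real.norm_of_nonneg h0.le]
    refine Summable.mul_left _ ?_
    simp only [add_mul, one_mul]
    exact (by simpa using summable_pow_mul_geometric_of_norm_lt_one 1 hn :
      Summable fun m : ℕ => (m : ℝ) * q ^ m).add (summable_geometric_of_norm_lt_one hn)
  have hcont : ContinuousOn (fun t : ℝ => ∑' m, (psi a m : ℝ) * t ^ m) (Set.Icc 0 q) :=
    continuousOn_tsum (fun m => by fun_prop) su bd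
  have z0 : ∑' m, (psi a m : ℝ) * (0 : ℝ) ^ m = 1 := by
    rw [tsum_eq_single 0 fun m hm => by simp [hm]]
    simp [psi, Nat.choose]
  obtain ⟨t, ht, hz⟩ := intermediate_value_Icc' h0.le hcont
    (show (0 : ℝ) ∈ Set.Icc _ _ from ⟨hq.le, by simp only [z0]; norm_num⟩)
  obtain ⟨β, hβ, hβq⟩ : ∃ β : ℝ, 1 < β ∧ β * q < 1 :=
    ⟨2 / (1 + q), by rw [one_lt_div (by linarith)]; linarith,
      by rw [div_mul_eq_mul_div, div_lt_one (by linarith)]; linarith⟩
  obtain ⟨N, hN⟩ := h β hβ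
  have sc : Summable fun n => ‖(c n : ℝ) * t ^ n‖ := by
    rw [← summable_nat_add_iff N]
    refine Summable.of_nonneg_of_le (fun _ => norm_nonneg _) (fun n => ?_)
      ((summable_nat_add_iff N).mpr (summable_geometric_of_lt_one (by positivity) hβq))
    rw [norm_mul, Real.norm_eq_abs, Real.norm_of_nonneg (pow_nonneg ht.1 _), mul_pow]
    exact mul_le_mul (hN _ (by omega)).le (pow_le_pow_left₀ ht.1 ht.2 _) (pow_nonneg ht.1 _)
      (by positivity)
  have sp : Summable fun n => ‖(psi a n : ℝ) * t ^ n‖ :=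
    Summable.of_nonneg_of_le (fun _ => norm_nonneg _) (fun n => bd n t ht) su
  have pr := tsum_mul_tsum_eq_tsum_sum_antidiagonal_of_summable_norm sc sp
  have hz' : ∑' m, (psi a m : ℝ) * t ^ m = 0 := hz
  rw [hz', mul_zero, tsum_eq_single 0] at pr
  · have := congrArg (PowerSeries.coeff 0) hc
    rw [PowerSeries.coeff_mul] at this
    simp only [HasAntidiagonal.antidiagonal_zero, sum_singleton, PowerSeries.coeff_mk, pow_zero,
      mul_one, PowerSeries.coeff_zero_one] at this pr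
    have h2 : ((c 0 * psi a 0 : ℤ) : ℝ) = 1 := by rw [this]; simp
    push_cast at h2
    linarith
  · intro n hn
    have := congrArg (PowerSeries.coeff n) hc
    rw [PowerSeries.coeff_mul, PowerSeries.coeff_one, if_neg hn] at this
    simp only [PowerSeries.coeff_mk] at this
    have h2 : ((∑ p ∈ HasAntidiagonal.antidiagonal n, c p.1 * psi a p.2 : ℤ) : ℝ) * t ^ n = 0 := by
      rw [this]; simp
    rw [← h2]
    push_cast
    rw [sum_mul]
    refine sum_congr rfl fun p hp => ?_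
    rw [← HasAntidiagonal.mem_antidiagonal.mp hp]
    ring

end Pool.Agent.Results.MP_0ebc21_nt.Growth
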